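import Mathlib
import Pool.Agent.W593.IR.Stm3

set_option autoImplicit false

namespace Pool.Agent.W200.IR

open Pool.Agent.W593.IR

lemma key (m e : ℕ) (he : e + 1 ≤ m) (g : ℝ) (h1 : (m : ℝ) ≤ g) (h2 : g < m + 1) :
    ((m : ℝ) / (m + 1)) ^ (e + 1) ≤ (m : ℝ) / g * (1 - 1 / g) ^ e := by
  have hm : (1 : ℝ) ≤ m := by exact_mod_cast (by omega : 1 ≤ m)
  have hg : 0 < g := by linarith
  have hm1 : (0 : ℝ) < m + 1 := by linarith
  obtain ⟨v, hv⟩ : ∃ v : ℝ, v = 1 / g := ⟨_, rfl⟩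
  obtain ⟨a, ha⟩ : ∃ a : ℝ, a = 1 / ((m : ℝ) + 1) := ⟨_, rfl⟩
  have hvpos : 0 < v := by rw [hv]; positivity
  have hapos : 0 < a := by rw [ha]; positivity
  have hav : a ≤ v := by
    rw [ha, hv]; exact one_div_le_one_div_of_le hg h2.le
  have hvm : v * m ≤ 1 := by
    rw [hv, one_div, inv_mul_le_iff₀ hg]; linarith
  have ham : a * (m + 1) = 1 := by rw [ha]; field_simp
  have h1a : (m : ℝ) / (m + 1) = 1 - a := by rw [ha]; field_simp; ring
  have h1a' : (m : ℝ) * a = 1 - a := by linarith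
  have h1apos : 0 < 1 - a := by rw [← h1a']; positivity
  have hv1 : v ≤ 1 := by nlinarith
  have hmg : (m : ℝ) / g = m * v := by rw [hv]; ring
  rw [hmg, h1a, ← hv]
  obtain ⟨r, hr⟩ : ∃ r : ℝ, r = (1 - v) / (1 - a) := ⟨_, rfl⟩
  have hr0 : 0 ≤ r := by rw [hr]; exact div_nonneg (by linarith) h1apos.le
  have hr1 : r * (1 - a) = 1 - v := by rw [hr]; field_simp
  have hB : 1 + (e : ℝ) * (r - 1) ≤ r ^ e := by
    have := one_add_mul_le_pow (a := r - 1) (by linarith) e
    simpa using this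
  have hee : (e : ℝ) + 1 ≤ m := by exact_mod_cast he
  have hev : (e : ℝ) * v ≤ 1 - a := by
    have h3 : (e : ℝ) * v ≤ 1 - v := by nlinarith
    linarith
  have hC : a * (1 - a) ≤ v * ((1 - a) * (1 + (e : ℝ) * (r - 1))) := by
    have : (1 - a) * (1 + (e : ℝ) * (r - 1)) = (1 - a) - e * (v - a) := by
      have : (1 - a) * (1 + (e : ℝ) * (r - 1)) = (1 - a) + e * (r * (1 - a) - (1 - a)) := by ring
      rw [this, hr1]; ring
    rw [this]
    nlinarith [mul_nonneg (sub_nonneg.2 hav) (sub_nonneg.2 hev)]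
  have hD : a ≤ v * r ^ e := by
    have h5 : (1 - a) * (1 + (e : ℝ) * (r - 1)) ≤ (1 - a) * r ^ e :=
      mul_le_mul_of_nonneg_left hB h1apos.le
    have h6 : a * (1 - a) ≤ v * ((1 - a) * r ^ e) :=
      hC.trans (mul_le_mul_of_nonneg_left h5 hvpos.le)
    have h7 : a * (1 - a) ≤ (v * r ^ e) * (1 - a) := by linarith
    exact le_of_mul_le_mul_right h7 h1apos
  calc (1 - a) ^ (e + 1) = (m * a) * (1 - a) ^ e := by rw [pow_succ, h1a']; ring
    _ ≤ (m * (v * r ^ e)) * (1 - a) ^ e := by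
        apply mul_le_mul_of_nonneg_right _ (pow_nonneg h1apos.le _)
        exact mul_le_mul_of_nonneg_left hD (by linarith)
    _ = m * v * (r * (1 - a)) ^ e := by rw [mul_pow]; ring
    _ = m * v * (1 - v) ^ e := by rw [hr1]

theorem sm : S_SM := by
  intro k hk u H hS j hj1 hjk
  have hU0 := hS.u0 j hjk
  have hU1 := hS.u1 j hjk
  have hH0 := hS.h0 j hjk
  have hH1 := hS.h1 j hjk
  have hjr : (1 : ℝ) ≤ j := by exact_mod_cast hj1
  have hkr : (0 : ℝ) < k := by
    have : 1 ≤ k := le_trans hj1 hjk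
    exact_mod_cast this
  have hHpos : 0 < H j := by linarith
  have hUpos : 0 < u j := by
    rcases hU0.eq_or_lt with h | h
    · rw [← h] at hH1; linarith
    · exact h
  obtain ⟨g, hg⟩ : ∃ g : ℝ, g = H j / u j := ⟨_, rfl⟩
  have hgU : g * u j = H j := by rw [hg]; field_simp
  have hgj : (j : ℝ) ≤ g := by
    rw [hg, le_div_iff₀ hUpos]; nlinarith
  have hgk : g ≤ k := by
    rw [hg, div_le_iff₀ hUpos]; exact hH1
  have hgpos : 0 < g := by linarith
  obtain ⟨m, hm⟩ : ∃ m : ℕ, m = ⌊g⌋₊ := ⟨_, rfl⟩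
  have hm1 : (m : ℝ) ≤ g := by rw [hm]; exact Nat.floor_le (by linarith)
  have hm2 : g < m + 1 := by rw [hm]; exact Nat.lt_floor_add_one g
  have hjm : j ≤ m := by rw [hm]; exact Nat.le_floor hgj
  have hmk : m ≤ k := by
    have : (m : ℝ) ≤ k := hm1.trans hgk
    exact_mod_cast this
  have hch := hS.ch j hjk m hjm g hm1 (by linarith) hUpos (by rw [hgU])
  rcases eq_or_lt_of_le hmk with h | h
  · have hgk' : g = k := le_antisymm hgk (by rw [← h]; exact hm1)
    rw [hgk', h] at hch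
    have h3 : (k : ℝ) * (1 - 1 / (k : ℝ)) ^ (k - j) ≤ k * u j := hch.trans hH1
    exact le_of_mul_le_mul_left h3 hkr
  · obtain ⟨e, he⟩ : ∃ e : ℕ, e = m - j := ⟨_, rfl⟩
    have hkey := key m e (by omega) g hm1 hm2
    have h4 : (m : ℝ) / g * (1 - 1 / g) ^ e ≤ u j := by
      rw [← he] at hch
      have : (m : ℝ) / g * (1 - 1 / g) ^ e = (m * (1 - 1 / g) ^ e) / g := by ring
      rw [this, div_le_iff₀ hgpos]
      linarith
    refine le_trans ?_ (hkey.trans h4)
    clear hkey h4 hch hm hm1 hm2 hgU hg hH0 hH1 hU0 hU1 hHpos hUpos hgj hgk hS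
    rcases hk with rfl | rfl
    · interval_cases m <;> interval_cases j <;> first | omega | (subst he; norm_num)
    · interval_cases m <;> interval_cases j <;> first | omega | (subst he; norm_num)

end Pool.Agent.W200.IR
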